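import Pool.Agent.H41.TU.B

/-!
# MP_b466f1_co: the conjectured characterization of Turánable oriented graphs fails cofinally

Let `𝓒` be the class of the finite oriented graphs which lie in some `F_r` and in some `C_{2k+1}^k`
(`InClass`). The conjecture says that the Turánable oriented graphs are the members of `𝓒`.

**Theorem.** (1) Some member of `𝓒` is not Turánable.
(2) There are semi-regular near-tournaments `T n`, one of each order `n + 3`, such that every member `G`
of `𝓒` is contained in a member `H` of `𝓒` which is contained in none of the `T n`, and hence is not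
Turánable.

So for the graphs `H` it is not only true that arbitrarily large semi-regular near-tournaments avoid
them: in every order at least 3 one does, and one fixed sequence does so for a cofinal set of graphs `H`.
The members `H` are categorical products of two interleaved chains with `F_R`; such products are cofinal
in `𝓒` (`C_{2k+1}^k` has a homomorphism to the interleaved chains). The `T n` are obtained from the
regular tournaments of the orders `3 (2 m + 1)` (which avoid the products) by adding at most five
vertices; this is harmless because a product with two more letters contains nine disjoint copies of the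
product.
-/

set_option autoImplicit false

namespace Pool.Agent.Results.MP_b466f1_co.CofinalFailure

open Pool.Agent.H41.TU

/-- The conjecture fails, and it fails cofinally and in every order: see the explanations above. -/
theorem result :
    (∃ (V : Type) (_ : Finite V) (G : OGraph V), InClass G ∧ ¬ G.Turanable) ∧
    ∃ (X : ℕ → Type) (T : (n : ℕ) → OGraph (X n)),
      (∀ n, Finite (X n) ∧ Nat.card (X n) = n + 3 ∧ (T n).SemiRegular) ∧
      ∀ (V : Type) [Finite V] (G : OGraph V), InClass G →
        ∃ (W : Type) (_ : Finite W) (H : OGraph W), G.Sub H ∧ InClass H ∧
          (∀ n, ¬ H.Sub (T n)) ∧ ¬ H.Turanable := by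
  choose X hX T h1 h2 h3 using every_order
  have key : ∀ (V : Type) [Finite V] (G : OGraph V), InClass G →
        ∃ (W : Type) (_ : Finite W) (H : OGraph W), G.Sub H ∧ InClass H ∧
          (∀ n, ¬ H.Sub (T n)) ∧ ¬ H.Turanable := by
    intro V _ G hG
    obtain ⟨K, R, k1, k2, k3, k4⟩ := cofinal_all G hG
    refine ⟨_, inferInstance, P K (R + 2), k3, k4, fun n => h3 n K R k1 k2, ?_⟩
    rintro ⟨n₀, hn⟩
    have := hX n₀
    exact h3 n₀ K R k1 k2 (hn (X n₀) (by rw [h1]; omega) (T n₀) (h2 n₀))
  obtain ⟨W, hW, H, -, k2, -, k3⟩ := key _ (P 1 1) (P_inClass le_rfl)
  exact ⟨⟨W, hW, H, k2, k3⟩, X, T, fun n => ⟨hX n, h1 n, h2 n⟩, key⟩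

end Pool.Agent.Results.MP_b466f1_co.CofinalFailure
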